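import Pool.Agent.V11281.Psc.Rigid

/-!
# A pseudocompact abelian `g`-reversible group which is not minimal
-/

set_option autoImplicit false

open Set Topology Filter Cardinal

namespace Pool.Agent.Results.MP_f1805c_gt.RigidPseudocompact

open Pool.Agent.V11281.Psc

/-- every continuous automorphism is open -/
def GReversible (G : Type) [AddCommGroup G] [TopologicalSpace G] : Prop :=
  ∀ f : G ≃+ G, Continuous f → IsOpenMap f

/-- no Hausdorff group topology is strictly coarser -/
def IsMinimal (G : Type) [AddCommGroup G] [t : TopologicalSpace G] : Prop :=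
  ∀ s : TopologicalSpace G, @IsTopologicalAddGroup G s _ → @T2Space G s → t ≤ s → s = t

/-- the list of separating functionals -/
lemma exists_enumSep : ∃ e : W → W × ℝ, ∀ (p : W × ℝ) (b : W), ∃ w, b < w ∧ e w = p := by
  apply exists_enum
  rw [Cardinal.mk_prod, Cardinal.lift_id, Cardinal.lift_id]
  exact Cardinal.mul_le_of_le Cardinal.aleph0_le_continuum mk_W.le Cardinal.mk_real.le

/-- the list of targets -/
lemma exists_enumTar : ∃ e : W → ((ℕ → W) × (ℕ → ℝ)),
    ∀ (p : (ℕ → W) × (ℕ → ℝ)) (b : W), ∃ w, b < w ∧ e w = p := by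
  apply exists_enum
  rw [Cardinal.mk_prod, Cardinal.lift_id, Cardinal.lift_id]
  exact Cardinal.mul_le_of_le Cardinal.aleph0_le_continuum (mk_seq_le mk_W.le)
    (mk_seq_le Cardinal.mk_real.le)

open Classical in
/-- the target function with number `b` -/
noncomputable def tar (b w : W) : ℝ :=
  if h : ∃ n, (exists_enumTar.choose b).1 n = w then (exists_enumTar.choose b).2 h.choose else 0

open Classical in
/-- the matrix -/
noncomputable def mat (w b : W) : ℝ :=
  if b < w then (if b = (exists_enumSep.choose w).1 then (exists_enumSep.choose w).2 else 0)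
  else tar b w

/-- real valued homomorphisms -/
noncomputable def hr (w : W) : (W →₀ ℚ) →+ ℝ :=
  Finsupp.liftAddHom fun b => (AddMonoidHom.mulRight (mat w b)).comp (Rat.castHom ℝ).toAddMonoidHom

lemma hr_apply (w : W) (x : W →₀ ℚ) : hr w x = x.sum fun b q => (q : ℝ) * mat w b := rfl

/-- the circle -/
abbrev T : Type := AddCircle (1 : ℝ)

/-- the characters -/
noncomputable def hc (w : W) : R →+ T :=
  ((QuotientAddGroup.mk' (AddSubgroup.zmultiples (1 : ℝ))).comp (hr w)).comp RG.subtype

lemma hc_apply (w : W) (x : R) : hc w x = ((hr w (x : W →₀ ℚ) : ℝ) : T) := rfl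

lemma hc_er (w b : W) : hc w (er b) = ((mat w b : ℝ) : T) := by
  rw [hc_apply]
  congr 1
  change hr w (Finsupp.single b 1) = _
  rw [hr_apply, Finsupp.sum_single_index (by simp)]
  simp

lemma half_ne_zero : (((1 / 2 : ℝ)) : T) ≠ 0 := by
  intro h
  rw [AddCircle.coe_eq_zero_iff] at h
  obtain ⟨n, hn⟩ := h
  rw [zsmul_eq_mul, mul_one] at hn
  have h1 : (2 * n : ℝ) = 1 := by linarith
  have h2 : (2 * n : ℤ) = 1 := by exact_mod_cast h1
  omega

/-- the characters separate the points -/
lemma exists_ne {x : R} (hx : x ≠ 0) : ∃ w, hc w x ≠ 0 := by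
  classical
  have h1 : (x : W →₀ ℚ) ≠ 0 := fun h => hx (Subtype.ext h)
  obtain ⟨b, hb⟩ := Finsupp.support_nonempty_iff.2 h1
  have hxb : (x : W →₀ ℚ) b ≠ 0 := Finsupp.mem_support_iff.1 hb
  obtain ⟨c, hc'⟩ := exists_bound (s := ((x : W →₀ ℚ).support : Set W))
    ((x : W →₀ ℚ).support.countable_toSet)
  obtain ⟨w, hcw, hw⟩ := exists_enumSep.choose_spec (b, 1 / (2 * ((x : W →₀ ℚ) b : ℝ))) c
  refine ⟨w, ?_⟩
  have h2 : hr w (x : W →₀ ℚ) = 1 / 2 := by
    rw [hr_apply, Finsupp.sum, Finset.sum_eq_single b]
    · unfold mat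
      rw [if_pos ((hc' b hb).trans hcw), hw, if_pos rfl]
      have : ((x : W →₀ ℚ) b : ℝ) ≠ 0 := by exact_mod_cast hxb
      field_simp
    · intro b' hb' hne
      unfold mat
      rw [if_pos ((hc' b' hb').trans hcw), hw, if_neg hne, mul_zero]
    · intro h; exact absurd hb h
  rw [hc_apply, h2]
  exact half_ne_zero

/-- the group maps onto countable faces -/
theorem exists_point (A : Set W) (hA : A.Countable) (t : W → T) :
    ∃ x : R, ∀ w ∈ A, hc w x = t w := by
  rcases A.eq_empty_or_nonempty with rfl | hne
  · exact ⟨0, by simp⟩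
  obtain ⟨a, ha⟩ := hA.exists_eq_range hne
  obtain ⟨b, hb⟩ := exists_bound hA
  have hlift : ∀ y : T, ∃ r : ℝ, (r : T) = y := fun y => QuotientAddGroup.mk_surjective y
  choose l hl using hlift
  obtain ⟨c, hbc, hcc⟩ := exists_enumTar.choose_spec (a, fun n => l (t (a n))) b
  refine ⟨er c, fun w hw => ?_⟩
  rw [hc_er]
  unfold mat
  rw [if_neg (not_lt.2 ((hb w hw).trans hbc).le)]
  have hex : ∃ n, (exists_enumTar.choose c).1 n = w := by
    rw [hcc]
    rw [ha] at hw
    exact hw
  unfold tar
  rw [dif_pos hex]
  have h1 := hex.choose_spec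
  generalize hex.choose = m at h1 ⊢
  have h2 : (exists_enumTar.choose c).2 m = l (t ((exists_enumTar.choose c).1 m)) := by
    rw [hcc]
  rw [h2, h1, hl]

/-- the embedding in a power of the circle -/
noncomputable def JR : R →+ (W → T) where
  toFun x w := hc w x
  map_zero' := by funext w; exact map_zero _
  map_add' x y := by funext w; exact map_add _ _ _

lemma JR_injective : Function.Injective JR := by
  rw [injective_iff_map_eq_zero]
  intro x hx
  by_contra hne
  obtain ⟨w, hw⟩ := exists_ne hne
  exact hw (congrFun hx w)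

/-- the topology -/
noncomputable def tR : TopologicalSpace R := TopologicalSpace.induced JR inferInstance

/-- the coarser embedding: one coordinate is doubled -/
noncomputable def JR2 : R →+ (W → T) where
  toFun x w := (open Classical in if w = i0 then (2 : ℕ) • hc w x else hc w x)
  map_zero' := by
    classical
    funext w
    simp
  map_add' x y := by
    classical
    funext w
    by_cases h : w = i0
    · simp only [h, if_true, Pi.add_apply, map_add, smul_add]
    · simp only [h, if_false, Pi.add_apply, map_add]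

lemma torsion_free {x : R} (h : (2 : ℕ) • x = 0) : x = 0 := by
  apply Subtype.ext
  ext j
  have h1 : (((2 : ℕ) • x : R) : W →₀ ℚ) j = 0 := by rw [h]; rfl
  rw [AddSubgroup.coe_nsmul, Finsupp.smul_apply, nsmul_eq_mul] at h1
  have h2 : (x : W →₀ ℚ) j = 0 := by
    rcases mul_eq_zero.1 h1 with h3 | h3
    · norm_num at h3
    · exact h3
  exact h2

lemma JR2_injective : Function.Injective JR2 := by
  classical
  rw [injective_iff_map_eq_zero]
  intro x hx
  apply torsion_free
  apply JR_injective
  rw [map_zero, map_nsmul]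
  funext w
  have h1 := congrFun hx w
  change (if w = i0 then (2 : ℕ) • hc w x else hc w x) = 0 at h1
  change (2 : ℕ) • hc w x = 0
  by_cases h : w = i0
  · rwa [if_pos h] at h1
  · rw [if_neg h] at h1
    rw [h1, smul_zero]

/-- the coarser topology -/
noncomputable def tR2 : TopologicalSpace R := TopologicalSpace.induced JR2 inferInstance

lemma tR_le : tR ≤ tR2 := by
  classical
  have h1 : (JR2 : R → (W → T)) = (fun y w => if w = i0 then (2 : ℕ) • y w else y w) ∘ JR := by
    funext x w
    rfl
  unfold tR2 tR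
  rw [h1, ← induced_compose]
  apply induced_mono
  rw [← continuous_iff_le_induced]
  refine continuous_pi fun w => ?_
  by_cases h : w = i0
  · simp only [h, if_true]
    have h2 : (fun y : W → T => (2 : ℕ) • y i0) = fun y => y i0 + y i0 := by
      funext y
      rw [two_nsmul]
    rw [h2]
    exact (continuous_apply i0).add (continuous_apply i0)
  · simp only [h, if_false]
    exact continuous_apply w

lemma tR_ne : tR2 ≠ tR := by
  classical
  intro heq
  -- a neighbourhood of zero in `tR`
  have h1 : {x : R | hc i0 x ≠ (((1 / 2 : ℝ)) : T)} ∈ @nhds R tR 0 := by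
    letI := tR
    have hcont : Continuous fun x : R => hc i0 x := by
      have h2 : Continuous (JR : R → (W → T)) := continuous_induced_dom
      exact (continuous_apply i0).comp h2
    refine (isOpen_compl_singleton.preimage hcont).mem_nhds ?_
    simp only [mem_preimage, map_zero, mem_compl_iff, mem_singleton_iff]
    exact fun h => half_ne_zero h.symm
  rw [← heq] at h1
  have hind : @IsInducing R (W → T) tR2 _ JR2 := @IsInducing.mk _ _ tR2 _ _ rfl
  have hnh : @nhds R tR2 0 = Filter.comap JR2 (𝓝 (JR2 0)) :=
    @IsInducing.nhds_eq_comap R (W → T) JR2 _ tR2 hind 0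
  rw [hnh, Filter.mem_comap] at h1
  obtain ⟨V, hV, hVU⟩ := h1
  rw [map_zero, nhds_pi, Filter.mem_pi] at hV
  obtain ⟨F, hF, u, hu, huV⟩ := hV
  obtain ⟨x, hx⟩ := exists_point (insert i0 F) (hF.countable.insert i0)
    (fun w => if w = i0 then (((1 / 2 : ℝ)) : T) else 0)
  have hx0 : hc i0 x = (((1 / 2 : ℝ)) : T) := by
    rw [hx i0 (mem_insert _ _), if_pos rfl]
  apply hVU (show x ∈ JR2 ⁻¹' V from huV fun w hw => ?_) hx0
  have h2 : JR2 x w = 0 := by
    change (if w = i0 then (2 : ℕ) • hc w x else hc w x) = 0
    by_cases h : w = i0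
    · rw [if_pos h, h, hx0, ← AddCircle.coe_nsmul]
      have h3 : (2 : ℕ) • (1 / 2 : ℝ) = 1 := by norm_num
      rw [h3, AddCircle.coe_period]
    · rw [if_neg h, hx w (mem_insert_of_mem _ hw), if_neg h]
  rw [h2]
  exact mem_of_mem_nhds (hu w)

/-- **MP_f1805c_gt, Q1 (disproved, also in the abelian version).** There is an abelian
pseudocompact `g`-reversible Hausdorff topological group which is not minimal. -/
theorem result : ∃ (G : Type) (_ : AddCommGroup G) (_ : TopologicalSpace G),
    IsTopologicalAddGroup G ∧ T2Space G ∧ Pseudocompact G ∧ GReversible G ∧ ¬ IsMinimal G := by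
  haveI : Fact ((0 : ℝ) < 1) := ⟨one_pos⟩
  haveI hsc : SecondCountableTopology T := UniformSpace.secondCountable_of_separable T
  letI : TopologicalSpace R := tR
  have hind : IsInducing (JR : R → (W → T)) := ⟨rfl⟩
  refine ⟨R, inferInstance, tR, topologicalAddGroup_induced JR,
    (IsEmbedding.mk hind JR_injective).t2Space, ?_, ?_, ?_⟩
  · exact (seqFeebly_of_faces hind exists_point).pseudocompact
  · intro f hf
    haveI : IsTopologicalAddGroup R := topologicalAddGroup_induced JR
    rcases auto_eq f with h | h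
    · have h1 : (f : R → R) = id := funext h
      rw [h1]
      exact IsOpenMap.id
    · have h1 : (f : R → R) = Homeomorph.neg R := funext h
      rw [h1]
      exact (Homeomorph.neg R).isOpenMap
  · intro hmin
    have hind2 : @IsInducing R (W → T) tR2 _ JR2 := @IsInducing.mk _ _ tR2 _ _ rfl
    exact tR_ne (hmin tR2 (topologicalAddGroup_induced JR2)
      (@IsEmbedding.t2Space _ _ tR2 _ _ _ (@IsEmbedding.mk _ _ tR2 _ _ hind2 JR2_injective)) tR_le)

end Pool.Agent.Results.MP_f1805c_gt.RigidPseudocompact
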